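import Pool.Agent.H66.BP.Targets
import Pool.Agent.H18.PZ.Fac

/-!
# BP, module AP: argument principle with a weight
-/

set_option autoImplicit false

open MeasureTheory Set Filter Topology Metric
open scoped Real ENNReal NNReal

namespace Pool.Agent.H54.BP

open Pool.Agent.H66.BP

/-- AP: argument principle with a weight. -/
theorem AP_proof : T_AP := by
  intro f φ c R hR hf hφ hsph
  have hpre : IsPreconnected (closedBall c R) := (convex_closedBall c R).isPreconnected
  have hs0 : c + R ∈ sphere c R := by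
    rw [mem_sphere_iff_norm, add_sub_cancel_left, Complex.norm_real, Real.norm_of_nonneg hR.le]
  have hs0' : c + R ∈ closedBall c R := sphere_subset_closedBall hs0
  have hfin : {z | z ∈ closedBall c R ∧ f z = 0}.Finite :=
    Pool.Agent.H18.PZ.zeros_finite hpre hf hs0' (hsph _ hs0) (isCompact_closedBall _ _) le_rfl
  set Z := hfin.toFinset with hZ
  have hZmem : ∀ z, z ∈ Z ↔ z ∈ closedBall c R ∧ f z = 0 := by
    intro z
    rw [hZ, Set.Finite.mem_toFinset]
    rfl
  have hZball : ∀ z ∈ Z, z ∈ ball c R := by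
    intro z hz
    obtain ⟨h1, h2⟩ := (hZmem z).1 hz
    rcases (mem_closedBall.1 h1).lt_or_eq with h | h
    · exact h
    · exact absurd h2 (hsph z h)
  obtain ⟨g, hg, hfg, hgZ⟩ := Pool.Agent.H18.PZ.factor (U := closedBall c R) (f := f)
    (fun s hs => hf s hs) Z fun z hz => ⟨((hZmem z).1 hz).1,
      Pool.Agent.H18.PZ.order_ne_top hpre hf hs0' (hsph _ hs0) ((hZmem z).1 hz).1⟩
  have hgne : ∀ s ∈ closedBall c R, g s ≠ 0 := by
    intro s hs
    by_cases h : f s = 0
    · exact hgZ s ((hZmem s).2 ⟨hs, h⟩)
    · intro h2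
      apply h
      rw [hfg s, h2, mul_zero]
  -- the integrand on the sphere
  have hval : ∀ s ∈ sphere c R, φ s * (deriv f s / f s) =
      (∑ z ∈ Z, (analyticOrderNatAt f z : ℂ) * ((s - z)⁻¹ • φ s)) + φ s * (deriv g s / g s) := by
    intro s hs
    rw [Pool.Agent.H18.PZ.factor_logDeriv hfg
      (hg s (sphere_subset_closedBall hs)).differentiableAt (hsph s hs), mul_add, Finset.mul_sum]
    congr 1
    refine Finset.sum_congr rfl fun z _ => ?_
    rw [smul_eq_mul]
    ring
  rw [circleIntegral.integral_congr hR.le hval]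
  have hne : ∀ z ∈ Z, ∀ s ∈ sphere c R, s - z ≠ 0 := by
    intro z hz s hs h
    have h1 : s = z := sub_eq_zero.1 h
    have h2 := hZball z hz
    rw [← h1, mem_ball] at h2
    rw [mem_sphere] at hs
    linarith
  have hci1 : ∀ z ∈ Z, CircleIntegrable (fun s => (analyticOrderNatAt f z : ℂ) *
      ((s - z)⁻¹ • φ s)) c R := by
    intro z hz
    apply ContinuousOn.circleIntegrable hR.le
    have h1 : ContinuousOn (fun s : ℂ => (s - z)⁻¹) (sphere c R) :=
      ContinuousOn.inv₀ (by fun_prop) (hne z hz)
    have h2 : ContinuousOn (fun s : ℂ => (s - z)⁻¹ * φ s) (sphere c R) :=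
      h1.mul hφ.continuous.continuousOn
    exact continuousOn_const.mul h2
  have hgd : ∀ s ∈ closedBall c R, AnalyticAt ℂ (fun s => φ s * (deriv g s / g s)) s := by
    intro s hs
    exact (hφ.analyticAt s).mul ((hg s hs).deriv.div (hg s hs) (hgne s hs))
  have hci2 : CircleIntegrable (fun s => φ s * (deriv g s / g s)) c R := by
    apply ContinuousOn.circleIntegrable hR.le
    intro s hs
    exact (hgd s (sphere_subset_closedBall hs)).continuousAt.continuousWithinAt
  have hsumint : CircleIntegrable (fun s => ∑ z ∈ Z, (analyticOrderNatAt f z : ℂ) *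
      ((s - z)⁻¹ • φ s)) c R := CircleIntegrable.fun_sum Z hci1
  rw [circleIntegral.integral_add hsumint hci2, circleIntegral.integral_fun_sum hci1]
  have h0 : (∮ s in C(c, R), φ s * (deriv g s / g s)) = 0 := by
    apply Complex.circleIntegral_eq_zero_of_differentiable_on_off_countable hR.le countable_empty
    · intro s hs
      exact (hgd s hs).continuousAt.continuousWithinAt
    · intro s hs
      exact (hgd s (ball_subset_closedBall hs.1)).differentiableAt
  rw [h0, add_zero]
  have h1 : ∀ z ∈ Z, (∮ s in C(c, R), (analyticOrderNatAt f z : ℂ) * ((s - z)⁻¹ • φ s)) =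
      2 * π * Complex.I * ((analyticOrderNatAt f z : ℂ) * φ z) := by
    intro z hz
    rw [circleIntegral.integral_const_mul,
      (hφ.diffContOnCl (s := ball c R)).circleIntegral_sub_inv_smul (hZball z hz), smul_eq_mul]
    ring
  rw [Finset.sum_congr rfl h1, ← Finset.mul_sum]
  congr 1
  symm
  apply finsum_mem_eq_sum_of_inter_support_eq
  ext z
  simp only [mem_inter_iff, Function.mem_support, Finset.mem_coe]
  constructor
  · rintro ⟨h2, h3⟩
    refine ⟨(hZmem z).2 ⟨ball_subset_closedBall h2, ?_⟩, h3⟩
    by_contra h4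
    apply h3
    have h5 : analyticOrderNatAt f z = 0 := by
      rw [analyticOrderNatAt, (hf z (ball_subset_closedBall h2)).analyticOrderAt_eq_zero.2 h4]
      rfl
    rw [h5]
    simp
  · rintro ⟨h2, h3⟩
    exact ⟨hZball z h2, h3⟩

end Pool.Agent.H54.BP
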