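import Pool.Agent.H66.BP.Targets

/-!
# BP, module JEN: Jensen formula for the sums `J`
-/

set_option autoImplicit false

open MeasureTheory Set Filter Topology Metric
open scoped Real ENNReal NNReal

namespace Pool.Agent.H54.BP

open Pool.Agent.H66.BP

/-- JEN: Jensen formula for the sums `J`. -/
theorem JEN_proof : T_JEN := by
  intro F hF hF0 z t ht
  set f : ℂ → ℂ := fun ξ => F (ξ • z) with hf
  have hfd : Differentiable ℂ f := hF.comp (by fun_prop)
  have hfa : AnalyticOnNhd ℂ f (closedBall (0 : ℂ) t) := fun x _ => hfd.analyticAt x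
  have hf0 : f 0 ≠ 0 := by simpa [hf] using hF0
  have hm : MeromorphicOn f (closedBall (0 : ℂ) |t|) := by
    rw [abs_of_pos ht]; exact hfa.meromorphicOn
  have hc0 : (0 : ℂ) ∈ closedBall (0 : ℂ) t := by simp [ht.le]
  have key := MeromorphicOn.circleAverage_log_norm ht.ne' hm
  rw [abs_of_pos ht] at key
  have hnat : ∀ x : ℕ∞, ((x.map ((↑) : ℕ → ℤ)) : WithTop ℤ).untop₀ = (x.toNat : ℤ) := by
    intro x
    induction x using ENat.recTopCoe with
    | top => simp
    | coe m => simp
  have hdiv : ∀ u ∈ closedBall (0 : ℂ) t,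
      MeromorphicOn.divisor f (closedBall (0 : ℂ) t) u = (analyticOrderNatAt f u : ℤ) := by
    intro u hu
    rw [MeromorphicOn.AnalyticOnNhd.divisor_apply hfa hu, hnat]
    rfl
  have hdiv0 : MeromorphicOn.divisor f (closedBall (0 : ℂ) t) 0 = 0 := by
    rw [hdiv 0 hc0, analyticOrderNatAt, (hfd.analyticAt 0).analyticOrderAt_eq_zero.2 hf0]
    rfl
  have htr : meromorphicTrailingCoeffAt f 0 = f 0 :=
    (hfd.analyticAt 0).meromorphicTrailingCoeffAt_of_ne_zero hf0
  have hf00 : f 0 = F 0 := by simp [hf]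
  rw [hdiv0, htr, hf00] at key
  show J (oF F) z t = Real.circleAverage (fun s : ℂ => Real.log ‖f s‖) 0 t - Real.log ‖F 0‖
  rw [key]
  simp only [Int.cast_zero, zero_mul, add_zero, add_sub_cancel_right]
  unfold J
  apply finsum_congr
  intro u
  by_cases hu0 : u = 0
  · simp [hu0]
  have hun : 0 < ‖u‖ := norm_pos_iff.2 hu0
  rw [zero_sub, norm_neg]
  by_cases hu : u ∈ closedBall (0 : ℂ) t
  · rw [hdiv u hu]
    have h1 : 1 ≤ t / ‖u‖ := by
      rw [one_le_div hun]
      simpa using hu
    rw [Real.posLog_eq_log (by rw [abs_of_nonneg (by positivity)]; exact h1), div_eq_mul_inv]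
    simp [oF, hf]
  · rw [(MeromorphicOn.divisor f (closedBall (0 : ℂ) t)).apply_eq_zero_of_notMem hu]
    have h1 : t / ‖u‖ ≤ 1 := by
      rw [div_le_one hun]
      rw [mem_closedBall_zero_iff, not_le] at hu
      exact hu.le
    rw [(Real.posLog_eq_zero_iff _).2 (by rw [abs_of_nonneg (by positivity)]; exact h1)]
    simp

end Pool.Agent.H54.BP
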