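import Pool.Agent.H66.BP.Targets
import Pool.Agent.H18.PZ.Fac

/-!
# BP, module JM: elementary properties of the Jensen sums
-/

set_option autoImplicit false

open MeasureTheory Set Filter Topology Metric
open scoped Real ENNReal NNReal

namespace Pool.Agent.H54.BP

open Pool.Agent.H66.BP

variable {F : ℂ × ℂ → ℂ}

lemma zero_of_oF (hF : Differentiable ℂ F) {z : ℂ × ℂ} {ζ : ℂ} (h : oF F z ζ ≠ 0) :
    F (ζ • z) = 0 := by
  by_contra h4
  apply h
  have hfd : Differentiable ℂ (fun ξ : ℂ => F (ξ • z)) := hF.comp (by fun_prop)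
  rw [oF, analyticOrderNatAt, (hfd.analyticAt ζ).analyticOrderAt_eq_zero.2 h4]
  rfl

/-- finitely many zeros in a ball -/
lemma oF_finite (hF : Differentiable ℂ F) (hF0 : F 0 ≠ 0) (z : ℂ × ℂ) (T : ℝ) :
    {ζ : ℂ | ζ ∈ closedBall (0 : ℂ) T ∧ oF F z ζ ≠ 0}.Finite := by
  have hfd : Differentiable ℂ (fun ξ : ℂ => F (ξ • z)) := hF.comp (by fun_prop)
  have h1 : {ζ : ℂ | ζ ∈ closedBall (0 : ℂ) T ∧ F (ζ • z) = 0}.Finite := by
    apply Pool.Agent.H18.PZ.zeros_finite (U := univ) isPreconnected_univ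
      (f := fun ξ : ℂ => F (ξ • z)) (fun x _ => hfd.analyticAt x) (mem_univ (0 : ℂ))
    · simpa using hF0
    · exact isCompact_closedBall _ _
    · exact subset_univ _
  exact h1.subset fun ζ hζ => ⟨hζ.1, zero_of_oF hF hζ.2⟩

lemma posLog_zero_of_le {t : ℝ} {ζ : ℂ} (h : |t| ≤ ‖ζ‖) : Real.posLog (t / ‖ζ‖) = 0 := by
  rw [Real.posLog_eq_zero_iff, abs_div, abs_norm]
  exact div_le_one_of_le₀ h (norm_nonneg _)

/-- the Jensen sum as a finite sum -/
lemma J_eq (hF : Differentiable ℂ F) (hF0 : F 0 ≠ 0) {D : ℂ × ℂ → ℂ → ℕ}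
    (hD : ∀ z ζ, D z ζ ≤ oF F z ζ) (z : ℂ × ℂ) {t T : ℝ} (h : |t| ≤ T) :
    J D z t = ∑ ζ ∈ (oF_finite hF hF0 z T).toFinset, (D z ζ : ℝ) * Real.posLog (t / ‖ζ‖) := by
  unfold J
  apply finsum_eq_sum_of_support_subset
  intro ζ hζ
  simp only [Function.mem_support, ne_eq, mul_eq_zero, not_or] at hζ
  simp only [Finite.coe_toFinset, mem_ofPred_eq]
  constructor
  · rw [mem_closedBall_zero_iff]
    by_contra hcon
    push Not at hcon
    exact hζ.2 (posLog_zero_of_le (h.trans hcon.le))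
  · intro h0
    apply hζ.1
    have := hD z ζ
    rw [h0, Nat.le_zero] at this
    rw [this]
    simp

lemma J_supp (hF : Differentiable ℂ F) (hF0 : F 0 ≠ 0) {D : ℂ × ℂ → ℂ → ℕ}
    (hD : ∀ z ζ, D z ζ ≤ oF F z ζ) (z : ℂ × ℂ) (t : ℝ) :
    (Function.support fun ζ : ℂ => (D z ζ : ℝ) * Real.posLog (t / ‖ζ‖)).Finite := by
  apply (oF_finite hF hF0 z |t|).subset
  intro ζ hζ
  simp only [Function.mem_support, ne_eq, mul_eq_zero, not_or] at hζ
  constructor
  · rw [mem_closedBall_zero_iff]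
    by_contra hcon
    push Not at hcon
    exact hζ.2 (posLog_zero_of_le hcon.le)
  · intro h0
    apply hζ.1
    have := hD z ζ
    rw [h0, Nat.le_zero] at this
    rw [this]
    simp

/-- JM: elementary properties of the Jensen sums. -/
theorem JM_proof : T_JM := by
  intro F D hF hF0 hD
  refine ⟨?_, ?_, ?_, ?_, ?_, ?_⟩
  · intro z t
    exact finsum_nonneg fun ζ => mul_nonneg (Nat.cast_nonneg _) Real.posLog_nonneg
  · intro z t ht t' ht' htt
    rw [mem_Ici] at ht ht'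
    rw [J_eq hF hF0 hD z (T := t') (by rwa [abs_of_nonneg ht]),
      J_eq hF hF0 hD z (T := t') (by rw [abs_of_nonneg ht'])]
    refine Finset.sum_le_sum fun ζ _ => ?_
    apply mul_le_mul_of_nonneg_left _ (Nat.cast_nonneg _)
    apply Real.posLog_le_posLog (by positivity)
    gcongr
  · intro t
    unfold J
    rw [← finsum_zero (M := ℝ) (α := ℂ)]
    apply finsum_congr
    intro ζ
    have h0 : oF F 0 ζ = 0 := by
      by_contra h
      have := zero_of_oF hF h
      rw [smul_zero] at this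
      exact hF0 this
    have := hD 0 ζ
    rw [h0, Nat.le_zero] at this
    rw [this]
    simp
  · intro c z t hc h
    unfold J
    rw [← finsum_comp_equiv (Equiv.mulLeft₀ c hc)
      (f := fun ζ : ℂ => (D z ζ : ℝ) * Real.posLog (‖c‖ * t / ‖ζ‖))]
    apply finsum_congr
    intro ζ
    have hcn : 0 < ‖c‖ := norm_pos_iff.2 hc
    rw [h ζ]
    show (D z (c * ζ) : ℝ) * Real.posLog (t / ‖ζ‖) =
      (D z (c * ζ) : ℝ) * Real.posLog (‖c‖ * t / ‖c * ζ‖)
    rw [norm_mul, mul_div_mul_left _ _ hcn.ne']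
  · intro D' hDD z t
    have hD' : ∀ z ζ, D' z ζ ≤ oF F z ζ := fun z ζ => by rw [← hDD z ζ]; omega
    unfold J
    rw [← finsum_add_distrib (J_supp hF hF0 hD z t) (J_supp hF hF0 hD' z t)]
    apply finsum_congr
    intro ζ
    rw [← hDD z ζ]
    push_cast
    ring
  · intro z t q ht hq hz
    have hq0 : 0 < q := by linarith
    have hq2 : 1 ≤ q ^ 2 := by nlinarith
    have h1 : t ≤ q ^ 2 * t := by nlinarith
    have h2 : q * t ≤ q ^ 2 * t := by nlinarith [mul_pos hq0 ht]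
    rw [J_eq hF hF0 hD z (T := q ^ 2 * t) (t := q ^ 2 * t) (by rw [abs_of_nonneg (by positivity)]),
      J_eq hF hF0 hD z (T := q ^ 2 * t) (t := q * t) (by rwa [abs_of_nonneg (by positivity)]),
      J_eq hF hF0 hD z (T := q ^ 2 * t) (t := t) (by rwa [abs_of_nonneg (by positivity)]),
      Finset.mul_sum, ← Finset.sum_sub_distrib, ← Finset.sum_add_distrib]
    apply Finset.sum_eq_zero
    intro ζ hζ
    rw [Finite.mem_toFinset] at hζ
    have hζ1 := mem_closedBall_zero_iff.1 hζ.1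
    by_cases hlt : ‖ζ‖ < t
    · by_cases h0 : ζ = 0
      · simp [h0]
      have hn : 0 < ‖ζ‖ := norm_pos_iff.2 h0
      have e0 : 1 ≤ t / ‖ζ‖ := by rw [one_le_div hn]; exact hlt.le
      have e1 : 1 ≤ q * t / ‖ζ‖ := by rw [one_le_div hn]; nlinarith
      have e2 : 1 ≤ q ^ 2 * t / ‖ζ‖ := by rw [one_le_div hn]; linarith
      rw [Real.posLog_eq_log (by rw [abs_of_nonneg (by positivity)]; exact e2),
        Real.posLog_eq_log (by rw [abs_of_nonneg (by positivity)]; exact e1),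
        Real.posLog_eq_log (by rw [abs_of_nonneg (by positivity)]; exact e0)]
      have l1 : Real.log (q * t / ‖ζ‖) = Real.log q + Real.log (t / ‖ζ‖) := by
        rw [mul_div_assoc, Real.log_mul hq0.ne' (by positivity)]
      have l2 : Real.log (q ^ 2 * t / ‖ζ‖) = 2 * Real.log q + Real.log (t / ‖ζ‖) := by
        rw [mul_div_assoc, Real.log_mul (by positivity) (by positivity), Real.log_pow]
        push_cast
        ring
      rw [l1, l2]
      ring
    · rw [hz ζ (not_lt.1 hlt) hζ1]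
      simp

end Pool.Agent.H54.BP
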