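import Pool.Agent.H66.BP.Targets

/-!
# BP, module TT: comparison of two sums of two exponentials
-/

set_option autoImplicit false

open MeasureTheory Set Filter Topology Metric
open scoped Real ENNReal NNReal

namespace Pool.Agent.H54.BP

open Pool.Agent.H66.BP

lemma phase (a b : ℂ) : ∃ u : ℂ, ‖u‖ = 1 ∧ ‖a + u * b‖ = ‖a‖ + ‖b‖ ∧
    ‖a + (-u) * b‖ = |‖a‖ - ‖b‖| := by
  refine ⟨Complex.exp ((a.arg - b.arg : ℝ) * Complex.I), Complex.norm_exp_ofReal_mul_I _, ?_, ?_⟩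
  all_goals
    have ha := Complex.norm_mul_exp_arg_mul_I a
    have hb := Complex.norm_mul_exp_arg_mul_I b
    have h1 : Complex.exp ((a.arg - b.arg : ℝ) * Complex.I) * b =
        ‖b‖ * Complex.exp (a.arg * Complex.I) := by
      nth_rw 2 [← hb]
      rw [mul_left_comm, ← Complex.exp_add]
      congr 2
      push_cast
      ring
  · rw [h1]
    nth_rw 1 [← ha]
    rw [← add_mul, norm_mul, Complex.norm_exp_ofReal_mul_I, mul_one, ← Complex.ofReal_add,
      Complex.norm_real, Real.norm_of_nonneg (by positivity)]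
  · rw [neg_mul, h1]
    nth_rw 1 [← ha]
    rw [← sub_eq_add_neg, ← sub_mul, norm_mul, Complex.norm_exp_ofReal_mul_I, mul_one,
      ← Complex.ofReal_sub, Complex.norm_real, Real.norm_eq_abs]

lemma all_phases {W τ L : ℝ} (hW : 0 < W) (hL : 2 * π ≤ L * W) {u : ℂ} (hu : ‖u‖ = 1) :
    ∃ x ∈ Icc τ (τ + L), Complex.exp (-(Complex.I * x * W)) = u := by
  have hpi := Real.pi_pos
  set φ := u.arg with hφ
  have hu' : Complex.exp (φ * Complex.I) = u := by
    have := Complex.norm_mul_exp_arg_mul_I u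
    rwa [hu, Complex.ofReal_one, one_mul] at this
  set k : ℤ := ⌈(τ * W + φ) / (2 * π)⌉ with hk
  have hk1 : (τ * W + φ) / (2 * π) ≤ k := Int.le_ceil _
  have hk2 : (k : ℝ) < (τ * W + φ) / (2 * π) + 1 := Int.ceil_lt_add_one _
  rw [div_le_iff₀ (by positivity)] at hk1
  have hk3 : (k : ℝ) * (2 * π) < τ * W + φ + 2 * π := by
    have h3 := mul_lt_mul_of_pos_right hk2 (show 0 < 2 * π by positivity)
    rw [add_mul, div_mul_cancel₀ _ (by positivity)] at h3
    linarith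
  refine ⟨((k : ℝ) * (2 * π) - φ) / W, ⟨?_, ?_⟩, ?_⟩
  · rw [le_div_iff₀ hW]
    linarith
  · rw [div_le_iff₀ hW]
    nlinarith
  · rw [← hu']
    have hWc : (W : ℂ) ≠ 0 := by exact_mod_cast hW.ne'
    have e : -(Complex.I * ((((k : ℝ) * (2 * π) - φ) / W : ℝ) : ℂ) * (W : ℂ)) =
        φ * Complex.I + ((-k : ℤ) : ℂ) * (2 * π * Complex.I) := by
      push_cast
      field_simp
      ring
    rw [e, Complex.exp_add, Complex.exp_int_mul_two_pi_mul_I, mul_one]

/-- TT: comparison of two sums of two exponentials. -/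
theorem TT_proof : T_TT := by
  intro a b a' b' W τ e L hW hL he h haa
  have hall : ∀ u : ℂ, ‖u‖ = 1 → |‖a + u * b‖ - ‖a' + u * b'‖| ≤ 2 * e := by
    intro u hu
    obtain ⟨x, hx, hxu⟩ := all_phases (τ := τ) hW hL hu
    have := h x hx
    rwa [hxu] at this
  obtain ⟨u, hu, hu1, hu2⟩ := phase a b
  obtain ⟨v, hv, hv1, hv2⟩ := phase a' b'
  have h1 := abs_le.1 (hall u hu)
  have h2 := abs_le.1 (hall (-u) (by rwa [norm_neg]))
  have h3 := abs_le.1 (hall v hv)
  have h4 := abs_le.1 (hall (-v) (by rwa [norm_neg]))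
  rw [hu1] at h1
  rw [hu2] at h2
  rw [hv1] at h3
  rw [hv2] at h4
  have t1 : ‖a' + u * b'‖ ≤ ‖a'‖ + ‖b'‖ := by
    refine (norm_add_le _ _).trans ?_
    rw [norm_mul, hu, one_mul]
  have t3 : ‖a + v * b‖ ≤ ‖a‖ + ‖b‖ := by
    refine (norm_add_le _ _).trans ?_
    rw [norm_mul, hv, one_mul]
  have t2 : |‖a'‖ - ‖b'‖| ≤ ‖a' + (-u) * b'‖ := by
    have := abs_norm_sub_norm_le a' (-((-u) * b'))
    rw [norm_neg, norm_mul, norm_neg, hu, one_mul, sub_neg_eq_add] at this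
    exact this
  have t4 : |‖a‖ - ‖b‖| ≤ ‖a + (-v) * b‖ := by
    have := abs_norm_sub_norm_le a (-((-v) * b))
    rw [norm_neg, norm_mul, norm_neg, hv, one_mul, sub_neg_eq_add] at this
    exact this
  rcases abs_cases (‖a‖ - ‖b‖) with ⟨e1, f1⟩ | ⟨e1, f1⟩ <;>
    rcases abs_cases (‖a'‖ - ‖b'‖) with ⟨e2, f2⟩ | ⟨e2, f2⟩ <;>
    rw [e1] at h2 t4 <;> rw [e2] at h4 t2 <;>
    constructor <;> linarith
end Pool.Agent.H54.BP
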