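import Pool.Agent.H66.BP.Targets

/-!
# BP, module VV: almost affine functions
-/

set_option autoImplicit false

open MeasureTheory Set Filter Topology Metric
open scoped Real ENNReal NNReal

namespace Pool.Agent.H54.BP

open Pool.Agent.H66.BP

/-- VV: a function which is almost affine in `log t` on all windows is sublinear. -/
theorem VV_proof : T_VV := by
  intro g q hq hmono hnn h ε hε
  have hq0 : 0 < q := by linarith
  have hq1 : 0 < q - 1 := by linarith
  obtain ⟨η, hη⟩ : ∃ η, η = ε * (q - 1) ^ 2 / 2 := ⟨_, rfl⟩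
  have hη0 : 0 < η := by rw [hη]; positivity
  obtain ⟨t₀, ht₀⟩ := (h η hη0).exists_forall_of_atTop
  obtain ⟨t₁, ht₁⟩ : ∃ t₁, t₁ = max t₀ 1 := ⟨_, rfl⟩
  have ht1 : 0 < t₁ := by rw [ht₁]; exact lt_of_lt_of_le one_pos (le_max_right _ _)
  have key : ∀ t ≥ t₁, g (q ^ 2 * t) - 2 * g (q * t) + g t ≤ η * t := fun t ht =>
    ht₀ t ((le_max_left _ _).trans (ht₁ ▸ ht))
  have hD : ∀ s ≥ t₁, ∀ j : ℕ, g (q ^ (j + 1) * s) - g (q ^ j * s) ≤
      (g (q * s) - g s) + η * s * ((q ^ j - 1) / (q - 1)) := by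
    intro s hs j
    induction j with
    | zero => simp
    | succ j ih =>
      have hs0 : 0 < s := lt_of_lt_of_le ht1 hs
      have hqj : 1 ≤ q ^ j := one_le_pow₀ hq.le
      have h1 := key (q ^ j * s) (by nlinarith)
      have e1 : q ^ 2 * (q ^ j * s) = q ^ (j + 1 + 1) * s := by ring
      have e2 : q * (q ^ j * s) = q ^ (j + 1) * s := by ring
      rw [e1, e2] at h1
      have e3 : η * s * ((q ^ (j + 1) - 1) / (q - 1)) =
          η * s * ((q ^ j - 1) / (q - 1)) + η * (q ^ j * s) := by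
        field_simp
        ring
      rw [e3]
      linarith
  have hG : ∀ s ≥ t₁, ∀ j : ℕ, g (q ^ j * s) ≤
      g s + j * (g (q * s) - g s) + η * s * (q ^ j / (q - 1) ^ 2) := by
    intro s hs j
    have hs0 : 0 < s := lt_of_lt_of_le ht1 hs
    induction j with
    | zero =>
      simp only [pow_zero, one_mul, Nat.cast_zero, zero_mul, add_zero]
      have : 0 ≤ η * s * (1 / (q - 1) ^ 2) := by positivity
      linarith
    | succ j ih =>
      have h1 := hD s hs j
      have e1 : q ^ j / (q - 1) ^ 2 + (q ^ j - 1) / (q - 1) ≤ q ^ (j + 1) / (q - 1) ^ 2 := by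
        have e2 : q ^ (j + 1) / (q - 1) ^ 2 - (q ^ j / (q - 1) ^ 2 + (q ^ j - 1) / (q - 1)) =
            1 / (q - 1) := by
          field_simp
          ring
        have e3 : 0 < 1 / (q - 1) := by positivity
        linarith
      have e4 : η * s * (q ^ j / (q - 1) ^ 2 + (q ^ j - 1) / (q - 1)) ≤
          η * s * (q ^ (j + 1) / (q - 1) ^ 2) := by gcongr
      rw [mul_add] at e4
      push_cast
      linarith
  -- the constants
  obtain ⟨G, hGdef⟩ : ∃ G, G = g (q * t₁) := ⟨_, rfl⟩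
  obtain ⟨K, hKdef⟩ : ∃ K, K = g (q ^ 2 * t₁) := ⟨_, rfl⟩
  have hG0 : 0 ≤ G := by rw [hGdef]; exact hnn _
  have hK0 : 0 ≤ K := by rw [hKdef]; exact hnn _
  have hlim : Tendsto (fun j : ℕ => G * (((j : ℝ) ^ 0) / q ^ j) + K * (((j : ℝ) ^ 1) / q ^ j)) atTop
      (𝓝 (G * 0 + K * 0)) :=
    ((tendsto_pow_const_div_const_pow_of_one_lt 0 hq).const_mul G).add
      ((tendsto_pow_const_div_const_pow_of_one_lt 1 hq).const_mul K)
  rw [mul_zero, mul_zero, add_zero] at hlim
  have hpos : 0 < ε / 2 * t₁ := by positivity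
  obtain ⟨J, hJ⟩ := (hlim.eventually (gt_mem_nhds hpos)).exists_forall_of_atTop
  filter_upwards [eventually_ge_atTop (q ^ J * t₁)] with t ht
  have hqJ : 1 ≤ q ^ J := one_le_pow₀ hq.le
  have htt1 : t₁ ≤ t := by nlinarith
  have ht0 : 0 < t := lt_of_lt_of_le ht1 htt1
  obtain ⟨j, hj1, hj2⟩ := exists_nat_pow_near (x := t / t₁) (by rwa [one_le_div ht1]) hq
  have hJj : J ≤ j := by
    by_contra hcon
    push Not at hcon
    have h1 : q ^ (j + 1) ≤ q ^ J := pow_le_pow_right₀ hq.le hcon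
    have h2 : q ^ J ≤ t / t₁ := by rwa [le_div_iff₀ ht1]
    linarith
  have hqj : 0 < q ^ j := by positivity
  obtain ⟨s, hs⟩ : ∃ s, s = t / q ^ j := ⟨_, rfl⟩
  have hts : t = q ^ j * s := by rw [hs]; field_simp
  have hs1 : t₁ ≤ s := by
    rw [hs, le_div_iff₀ hqj]
    rw [le_div_iff₀ ht1] at hj1
    linarith
  have hs2 : s ≤ q * t₁ := by
    rw [hs, div_le_iff₀ hqj]
    rw [div_lt_iff₀ ht1, pow_succ] at hj2
    nlinarith
  have hs0 : 0 < s := lt_of_lt_of_le ht1 hs1
  have h1 := hG s hs1 j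
  rw [← hts] at h1
  have h2 : g s ≤ G := by
    rw [hGdef]
    exact hmono (mem_Ici.2 hs0.le) (mem_Ici.2 (by positivity)) hs2
  have h3 : g (q * s) - g s ≤ K := by
    have h4 : g (q * s) ≤ K := by
      rw [hKdef]
      apply hmono (mem_Ici.2 (by positivity)) (mem_Ici.2 (by positivity))
      nlinarith
    linarith [hnn s]
  have h4 : (j : ℝ) * (g (q * s) - g s) ≤ j * K := by gcongr
  have h5 : η * s * (q ^ j / (q - 1) ^ 2) = ε / 2 * t := by
    rw [hts, hη]
    field_simp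
  have h6 := hJ j hJj
  have h7 : G + j * K ≤ ε / 2 * t := by
    have h8 : (G * (((j : ℝ) ^ 0) / q ^ j) + K * (((j : ℝ) ^ 1) / q ^ j)) * q ^ j = G + j * K := by
      field_simp
    rw [← h8]
    calc (G * (((j : ℝ) ^ 0) / q ^ j) + K * (((j : ℝ) ^ 1) / q ^ j)) * q ^ j
        ≤ (ε / 2 * t₁) * q ^ j := by
          apply mul_le_mul_of_nonneg_right h6.le hqj.le
      _ ≤ ε / 2 * t := by
          rw [hts]
          have : ε / 2 * t₁ * q ^ j = ε / 2 * (q ^ j * t₁) := by ring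
          rw [this]
          gcongr
  linarith

end Pool.Agent.H54.BP
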